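import Pool.Agent.Q279.BA.Final

/-!
# Supercongruences for the balanced-word sequence at prime powers
-/

set_option autoImplicit false

namespace Pool.Agent.Results.MP_5eb62f_nt.PrimePowers

open Finset

/-- `a n = ∑_{j=0}^{n-1} C(n, j) C(n-1, j) C(n+j-1, j) ^ 2` for `n ≥ 1`, and `a 0 = 1`. -/
def a (n : ℕ) : ℕ :=
  if n = 0 then 1
  else ∑ j ∈ range n, n.choose j * (n - 1).choose j * (n + j - 1).choose j ^ 2

/-- For every prime `p ≥ 5` and every `r ≥ 2`, `p ^ (3 r + 3)` divides `a (p ^ r) - a (p ^ (r - 1))`. -/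
theorem result : ∀ p : ℕ, p.Prime → 5 ≤ p → ∀ r : ℕ, 2 ≤ r →
    (p : ℤ) ^ (3 * r + 3) ∣ (a (p ^ r) : ℤ) - (a (p ^ (r - 1)) : ℤ) := by
  intro p hp h5 r hr
  haveI : Fact p.Prime := ⟨hp⟩
  have h := Q279.BA.power_case (p := p) hr h5
  have e : ∀ m, a (p ^ m) = Q279.BA.a (p ^ m) := by
    intro m
    unfold a
    rw [if_neg (pow_ne_zero m hp.ne_zero)]
    rfl
  rw [e, e]
  exact h

end Pool.Agent.Results.MP_5eb62f_nt.PrimePowers
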